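import Mathlib

/-!
A line (an order of type `ω` given by a successor relation `Step`) in which short elements come
very late.
-/

namespace Pool.Agent.H316.FA

open Relation

/-- The elements of the line. -/
inductive D : Type
  | b0 (n : ℕ)
  | b1 (n : ℕ)
  | b2 (n : ℕ)
  | zd (a b : ℕ)
  | zu (a b : ℕ)
  | ld (t c i : ℕ)
  | lu (t c i : ℕ)

open D

/-- The successor relation of the line. -/
inductive Step (g nb : ℕ → ℕ) : D → D → Prop
  | b0z (a : ℕ) : Step g nb (b0 (g a)) (zd a 0)
  | b0b (n : ℕ) (h : ∀ a, g a ≠ n) : Step g nb (b0 n) (b1 n)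
  | b1l (j : ℕ) : Step g nb (b1 (nb j)) (ld 0 0 j)
  | b1b (n : ℕ) (h : ∀ j, nb j ≠ n) : Step g nb (b1 n) (b2 n)
  | b2b (n : ℕ) : Step g nb (b2 n) (b0 (n + 1))
  | zdd (a b : ℕ) : Step g nb (zd (a + 1) b) (zd a (b + 1))
  | zt (b : ℕ) : Step g nb (zd 0 b) (zu 0 b)
  | zuu (a b : ℕ) : Step g nb (zu a (b + 1)) (zu (a + 1) b)
  | zr (a : ℕ) : Step g nb (zu a 0) (b1 (g a))
  | ldd (t c i : ℕ) : Step g nb (ld t c (i + 1)) (ld t (c + 1) i)
  | ln (t j : ℕ) : Step g nb (ld t (nb j) 0) (ld (t + 1) 0 j)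
  | lt (t c : ℕ) (h : ∀ j, nb j ≠ c) : Step g nb (ld t c 0) (lu t c 0)
  | luu (t c i : ℕ) : Step g nb (lu t (c + 1) i) (lu t c (i + 1))
  | lr (t i : ℕ) : Step g nb (lu (t + 1) 0 i) (lu t (nb i) 0)
  | lb (i : ℕ) : Step g nb (lu 0 0 i) (b2 (nb i))

variable {g nb : ℕ → ℕ}

lemma step_total (d : D) : ∃ d', Step g nb d d' := by
  rcases d with n | n | n | ⟨a, b⟩ | ⟨a, b⟩ | ⟨t, c, i⟩ | ⟨t, c, i⟩
  · by_cases h : ∃ a, g a = n
    · obtain ⟨a, rfl⟩ := h; exact ⟨_, .b0z a⟩
    · exact ⟨_, .b0b n (fun a ha => h ⟨a, ha⟩)⟩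
  · by_cases h : ∃ a, nb a = n
    · obtain ⟨a, rfl⟩ := h; exact ⟨_, .b1l a⟩
    · exact ⟨_, .b1b n (fun a ha => h ⟨a, ha⟩)⟩
  · exact ⟨_, .b2b n⟩
  · cases a with
    | zero => exact ⟨_, .zt b⟩
    | succ a => exact ⟨_, .zdd a b⟩
  · cases b with
    | zero => exact ⟨_, .zr a⟩
    | succ b => exact ⟨_, .zuu a b⟩
  · cases i with
    | succ i => exact ⟨_, .ldd t c i⟩
    | zero =>
      by_cases h : ∃ a, nb a = c
      · obtain ⟨a, rfl⟩ := h; exact ⟨_, .ln t a⟩
      · exact ⟨_, .lt t c (fun a ha => h ⟨a, ha⟩)⟩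
  · cases c with
    | succ c => exact ⟨_, .luu t c i⟩
    | zero =>
      cases t with
      | zero => exact ⟨_, .lb i⟩
      | succ t => exact ⟨_, .lr t i⟩

lemma step_fun (hg : Function.Injective g) (hnb : Function.Injective nb) {d d1 d2 : D}
    (h1 : Step g nb d d1) (h2 : Step g nb d d2) : d1 = d2 := by
  generalize hd : d = e at h2
  cases h1 <;> cases h2 <;> simp_all <;> first
    | exact hnb hd
    | exact hg hd
    | exact hnb hd.2
    | (rename_i h; exact h _ rfl)

/-- Reachability. -/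
abbrev Rch (g nb : ℕ → ℕ) : D → D → Prop := ReflTransGen (Step g nb)

lemma zd_chain (a : ℕ) : ∀ b, Rch g nb (zd a b) (zd 0 (a + b)) := by
  induction a with
  | zero => intro b; rw [zero_add]
  | succ a ih =>
    intro b
    refine ReflTransGen.head (.zdd a b) ?_
    have := ih (b + 1)
    rwa [show a + (b + 1) = a + 1 + b by ring] at this

lemma zd_chain' (a : ℕ) : ∀ b, Rch g nb (zd (a + b) 0) (zd a b) := by
  intro b
  induction b generalizing a with
  | zero => exact .refl
  | succ b ih =>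
    have := ih (a + 1)
    rw [show a + 1 + b = a + (b + 1) by ring] at this
    exact this.tail (.zdd a b)

lemma zu_chain (b : ℕ) : ∀ a, Rch g nb (zu a b) (zu (a + b) 0) := by
  induction b with
  | zero => intro a; exact .refl
  | succ b ih =>
    intro a
    refine ReflTransGen.head (.zuu a b) ?_
    have := ih (a + 1)
    rwa [show a + 1 + b = a + (b + 1) by ring] at this

lemma zu_chain' (a : ℕ) : ∀ b, Rch g nb (zu 0 (a + b)) (zu a b) := by
  induction a with
  | zero => intro b; rw [zero_add]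
  | succ a ih =>
    intro b
    have := ih (b + 1)
    rw [show a + (b + 1) = a + 1 + b by ring] at this
    exact this.tail (.zuu a b)

lemma b0_b1 (n : ℕ) : Rch g nb (b0 n) (b1 n) := by
  by_cases h : ∃ a, g a = n
  · obtain ⟨a, rfl⟩ := h
    refine ReflTransGen.head (.b0z a) ?_
    refine ReflTransGen.trans (zd_chain a 0) ?_
    rw [add_zero]
    refine ReflTransGen.head (.zt a) ?_
    refine ReflTransGen.tail (b := zu a 0) ?_ (.zr a)
    have := zu_chain (g := g) (nb := nb) a 0
    rwa [zero_add] at this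
  · exact ReflTransGen.single (.b0b n fun a ha => h ⟨a, ha⟩)

lemma ld_chain (t : ℕ) (c : ℕ) : ∀ i, Rch g nb (ld t 0 (c + i)) (ld t c i) := by
  induction c with
  | zero => intro i; rw [zero_add]
  | succ c ih =>
    intro i
    have := ih (i + 1)
    rw [show c + (i + 1) = c + 1 + i by ring] at this
    exact this.tail (.ldd t c i)

lemma lu_chain (t : ℕ) (i : ℕ) : ∀ c, Rch g nb (lu t (c + i) 0) (lu t c i) := by
  induction i with
  | zero => intro c; exact .refl
  | succ i ih =>
    intro c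
    have := ih (c + 1)
    rw [show c + 1 + i = c + (i + 1) by ring] at this
    exact this.tail (.luu t c i)

lemma turn (hlt : ∀ j, j < nb j) (j : ℕ) : ∀ t, Rch g nb (ld t j 0) (lu t j 0) := by
  induction j using Nat.strong_induction_on with
  | _ j ih =>
    intro t
    by_cases h : ∃ i, nb i = j
    · obtain ⟨i, rfl⟩ := h
      refine ReflTransGen.head (.ln t i) ?_
      refine ReflTransGen.trans (b := ld (t + 1) i 0) ?_ ?_
      · simpa using ld_chain (g := g) (nb := nb) (t + 1) i 0
      refine ReflTransGen.trans (ih i (hlt i) (t + 1)) ?_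
      refine ReflTransGen.tail (b := lu (t + 1) 0 i) ?_ (.lr t i)
      simpa using lu_chain (g := g) (nb := nb) (t + 1) i 0
    · exact ReflTransGen.single (.lt t j fun a ha => h ⟨a, ha⟩)

lemma full (hlt : ∀ j, j < nb j) (t j : ℕ) : Rch g nb (ld t 0 j) (lu t 0 j) := by
  refine ReflTransGen.trans (b := ld t j 0) ?_ (ReflTransGen.trans (turn hlt j t) ?_)
  · simpa using ld_chain (g := g) (nb := nb) t j 0
  · simpa using lu_chain (g := g) (nb := nb) t j 0

lemma b1_b2 (hlt : ∀ j, j < nb j) (n : ℕ) : Rch g nb (b1 n) (b2 n) := by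
  by_cases h : ∃ j, nb j = n
  · obtain ⟨j, rfl⟩ := h
    exact ReflTransGen.head (.b1l j) ((full hlt 0 j).tail (.lb j))
  · exact ReflTransGen.single (.b1b n fun a ha => h ⟨a, ha⟩)

lemma b0_mono (hlt : ∀ j, j < nb j) {n m : ℕ} (h : n ≤ m) : Rch g nb (b0 n) (b0 m) := by
  induction m, h using Nat.le_induction with
  | base => exact .refl
  | succ m _ ih => exact ((ih.trans (b0_b1 m)).trans (b1_b2 hlt m)).tail (.b2b m)

lemma b1_mono (hlt : ∀ j, j < nb j) {n m : ℕ} (h : n ≤ m) : Rch g nb (b1 n) (b1 m) := by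
  rcases Nat.eq_or_lt_of_le h with rfl | h
  · exact .refl
  · exact (((b1_b2 hlt n).tail (.b2b n)).trans (b0_mono hlt h)).trans (b0_b1 m)

/-- The top of level `t` is reached late. -/
lemma reach_ld (hlt : ∀ j, j < nb j) (t : ℕ) :
    ∀ j, Rch g nb (b1 (nb (nb^[t] j))) (ld t 0 j) := by
  induction t with
  | zero => intro j; exact ReflTransGen.single (.b1l j)
  | succ t ih =>
    intro j
    rw [Function.iterate_succ_apply]
    refine ((ih (nb j)).trans ?_).tail (.ln t j)
    simpa using ld_chain (g := g) (nb := nb) t (nb j) 0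

lemma reach_all (hlt : ∀ j, j < nb j) (d : D) : Rch g nb (b0 0) d := by
  have hb0 : ∀ n, Rch g nb (b0 0) (b0 n) := fun n => b0_mono hlt (Nat.zero_le n)
  have hb1 : ∀ n, Rch g nb (b0 0) (b1 n) := fun n => (hb0 n).trans (b0_b1 n)
  have hld : ∀ t c i, Rch g nb (b0 0) (ld t c i) := fun t c i =>
    ((hb1 _).trans (reach_ld hlt t (c + i))).trans (ld_chain t c i)
  have hlu : ∀ t c i, Rch g nb (b0 0) (lu t c i) := fun t c i =>
    ((hld t (c + i) 0).trans (turn hlt (c + i) t)).trans (lu_chain t i c)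
  have hzd : ∀ a b, Rch g nb (b0 0) (zd a b) := fun a b =>
    ((hb0 (g (a + b))).tail (.b0z (a + b))).trans (zd_chain' a b)
  have hzu : ∀ a b, Rch g nb (b0 0) (zu a b) := fun a b =>
    ((hzd 0 (a + b)).tail (.zt (a + b))).trans (zu_chain' a b)
  rcases d with n | n | n | ⟨a, b⟩ | ⟨a, b⟩ | ⟨t, c, i⟩ | ⟨t, c, i⟩
  · exact hb0 n
  · exact hb1 n
  · exact (hb1 n).trans (b1_b2 hlt n)
  · exact hzd a b
  · exact hzu a b
  · exact hld t c i
  · exact hlu t c i

lemma orbit_inj {X : Type} [Infinite X] (f : X → X) (s : X) (h : ∀ x, ∃ n, f^[n] s = x) :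
    Function.Injective fun n => f^[n] s := by
  intro i j hij
  by_contra hne
  wlog hlt : i < j generalizing i j
  · exact this hij.symm (Ne.symm hne) (lt_of_le_of_ne (not_lt.1 hlt) (Ne.symm hne))
  have hfin : ∀ k, ∃ l < j, f^[k] s = f^[l] s := by
    intro k
    induction k using Nat.strong_induction_on with
    | _ k ih =>
      by_cases hk : k < j
      · exact ⟨k, hk, rfl⟩
      · have h1 : f^[k] s = f^[k - j + i] s := by
          have h2 : k = (k - j) + j := by omega
          conv_lhs => rw [h2, Function.iterate_add_apply]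
          rw [Function.iterate_add_apply]
          exact congrArg _ hij.symm
        obtain ⟨l, hl, h3⟩ := ih (k - j + i) (by omega)
        exact ⟨l, hl, h1.trans h3⟩
  have : Finite X := by
    refine Finite.of_surjective (fun l : Fin j => f^[l] s) ?_
    intro x
    obtain ⟨n, rfl⟩ := h x
    obtain ⟨l, hl, h4⟩ := hfin n
    exact ⟨⟨l, hl⟩, h4.symm⟩
  exact not_finite X

instance : Infinite D := Infinite.of_injective b0 fun _ _ h => by simpa using h

/-- The positions on the line. -/
theorem exists_pos (hg : Function.Injective g) (hnb : Function.Injective nb)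
    (hlt : ∀ j, j < nb j) : ∃ pos : D → ℕ, Function.Bijective pos ∧
      (∀ d d', Step g nb d d' ↔ pos d' = pos d + 1) ∧
      ∀ t a, g a ≤ nb (nb^[t] 0) → a < pos (ld t 0 0) := by
  choose f hf using step_total (g := g) (nb := nb)
  have hstep : ∀ d d', Step g nb d d' ↔ d' = f d := fun d d' =>
    ⟨fun h => step_fun hg hnb h (hf d), fun h => h ▸ hf d⟩
  have hsurj : ∀ d, ∃ n, f^[n] (b0 0) = d := by
    intro d
    have := reach_all (g := g) hlt d
    induction this with
    | refl => exact ⟨0, rfl⟩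
    | tail _ h ih =>
      obtain ⟨n, hn⟩ := ih
      refine ⟨n + 1, ?_⟩
      rw [Function.iterate_succ_apply', hn]
      exact ((hstep _ _).1 h).symm
  have hinj := orbit_inj f (b0 0) hsurj
  choose pos hpos using hsurj
  have hposf : ∀ d, pos (f d) = pos d + 1 := by
    intro d
    apply hinj
    change f^[pos (f d)] (b0 0) = f^[pos d + 1] (b0 0)
    rw [hpos, Function.iterate_succ_apply', hpos]
  have hposinj : Function.Injective pos := fun d d' h => by rw [← hpos d, h, hpos d']
  refine ⟨pos, ⟨hposinj, ?_⟩, ?_, ?_⟩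
  · intro n
    refine ⟨f^[n] (b0 0), ?_⟩
    exact hinj (by change f^[pos (f^[n] (b0 0))] (b0 0) = _; rw [hpos])
  · intro d d'
    rw [hstep]
    constructor
    · rintro rfl; exact hposf d
    · intro h; rw [← hposf] at h; exact hposinj h
  · intro t a ha
    have hmono : ∀ {x y}, Rch g nb x y → pos x ≤ pos y := by
      intro x y h
      induction h with
      | refl => exact le_rfl
      | tail _ h ih =>
        rw [(hstep _ _).1 h, hposf]; omega
    have h1 : ∀ a b, pos (zd a b) + a ≤ pos (zd 0 (a + b)) := by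
      intro a
      induction a with
      | zero => intro b; rw [zero_add]; omega
      | succ a ih =>
        intro b
        have h2 := ih (b + 1)
        rw [show a + (b + 1) = a + 1 + b by ring] at h2
        have h3 : pos (zd a (b + 1)) = pos (zd (a + 1) b) + 1 := by
          rw [(hstep _ _).1 (Step.zdd a b), hposf]
        omega
    have h2 := h1 a 0
    rw [add_zero] at h2
    have h3 : pos (zu 0 a) = pos (zd 0 a) + 1 := by rw [(hstep _ _).1 (Step.zt a), hposf]
    have h4 : Rch g nb (zu 0 a) (ld t 0 0) := by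
      have h5 := zu_chain (g := g) (nb := nb) a 0
      rw [zero_add] at h5
      exact ((h5.tail (.zr a)).trans (b1_mono hlt ha)).trans (reach_ld hlt t 0)
    have := hmono h4
    omega

end Pool.Agent.H316.FA
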