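import Pool.Agent.H316.FA.Odo
import Pool.Agent.H316.FA.Line

/-!
The elements of the line coded by words with a header and three tracks.
-/

set_option linter.unusedSimpArgs false

namespace Pool.Agent.H316.FA

open D

variable {S : Type} {m : ℕ} (e : S ≃ Fin (m + 2)) (cd : ℕ → List S)

/-- The code of an element. -/
def enc : D → Fin 7 × List S × List S × List S
  | b0 n => (0, st e n, [], [])
  | b1 n => (1, st e n, [], [])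
  | b2 n => (2, st e n, [], [])
  | zd a b => (3, cd a, cd b, [])
  | zu a b => (4, cd a, cd b, [])
  | ld t c i => (5, List.replicate t (zz0 e), st e c, List.replicate i (zz0 e))
  | lu t c i => (6, List.replicate t (zz0 e), st e c, List.replicate i (zz0 e))

lemma rep_inj {a : S} {i j : ℕ} (h : List.replicate i a = List.replicate j a) : i = j := by
  simpa using congrArg List.length h

lemma enc_inj (hcd : Function.Injective cd) : Function.Injective (enc e cd) := by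
  intro d d' h
  rcases d with n | n | n | ⟨a, b⟩ | ⟨a, b⟩ | ⟨t, c, i⟩ | ⟨t, c, i⟩ <;>
  rcases d' with n' | n' | n' | ⟨a', b'⟩ | ⟨a', b'⟩ | ⟨t', c', i'⟩ | ⟨t', c', i'⟩ <;>
  simp only [enc, Prod.mk.injEq, reduceCtorEq, Fin.reduceEq, false_and, true_and, and_true] at h
  · rw [st_inj e h]
  · rw [st_inj e h]
  · rw [st_inj e h]
  · rw [hcd h.1, hcd h.2]
  · rw [hcd h.1, hcd h.2]
  · rw [rep_inj h.1, st_inj e h.2.1, rep_inj h.2.2]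
  · rw [rep_inj h.1, st_inj e h.2.1, rep_inj h.2.2]

/-- The index of the word `z ^ (j + 2)`. -/
def nb (m : ℕ) (j : ℕ) : ℕ := NN m (j + 2)

lemma st_nb (j : ℕ) : st e (nb m j) = List.replicate (j + 2) (zz0 e) := by
  unfold nb
  rw [← idx_rep e, st_idx]

/-- The step relation on codes. -/
def StepC (h : Fin 7) (x₀ x₁ x₂ : List S) (h' : Fin 7) (y₀ y₁ y₂ : List S) : Prop :=
  (h = 0 ∧ h' = 3 ∧ (∃ a, x₀ = cd a) ∧ x₀ = y₀ ∧ y₁ = cd 0 ∧ x₁ = [] ∧ x₂ = [] ∧ y₂ = []) ∨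
  (h = 0 ∧ h' = 1 ∧ (¬ ∃ a, x₀ = cd a) ∧ x₀ = y₀ ∧ y₁ = [] ∧ x₁ = [] ∧ x₂ = [] ∧ y₂ = []) ∨
  (h = 1 ∧ h' = 5 ∧ Pw (zz0 e) x₀ y₂ ∧ y₀ = [] ∧ y₁ = [] ∧ x₁ = [] ∧ x₂ = []) ∨
  (h = 1 ∧ h' = 2 ∧ (¬ Pw1 (zz0 e) x₀) ∧ x₀ = y₀ ∧ y₁ = [] ∧ x₁ = [] ∧ x₂ = [] ∧ y₂ = []) ∨
  (h = 2 ∧ h' = 0 ∧ y₀ = sc e x₀ ∧ y₁ = [] ∧ x₁ = [] ∧ x₂ = [] ∧ y₂ = []) ∨
  (h = 3 ∧ h' = 3 ∧ (∃ a, y₀ = cd a ∧ x₀ = cd (a + 1)) ∧ (∃ a, x₁ = cd a ∧ y₁ = cd (a + 1)) ∧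
    x₂ = [] ∧ y₂ = []) ∨
  (h = 3 ∧ h' = 4 ∧ x₀ = cd 0 ∧ y₀ = cd 0 ∧ (∃ a, x₁ = cd a) ∧ x₁ = y₁ ∧ x₂ = [] ∧ y₂ = []) ∨
  (h = 4 ∧ h' = 4 ∧ (∃ a, x₀ = cd a ∧ y₀ = cd (a + 1)) ∧ (∃ a, y₁ = cd a ∧ x₁ = cd (a + 1)) ∧
    x₂ = [] ∧ y₂ = []) ∨
  (h = 4 ∧ h' = 1 ∧ (∃ a, x₀ = cd a) ∧ x₁ = cd 0 ∧ x₀ = y₀ ∧ x₂ = [] ∧ y₁ = [] ∧ y₂ = []) ∨
  (h = 5 ∧ h' = 5 ∧ Un (zz0 e) x₀ ∧ x₀ = y₀ ∧ y₁ = sc e x₁ ∧ US (zz0 e) y₂ x₂) ∨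
  (h = 5 ∧ h' = 5 ∧ US (zz0 e) x₀ y₀ ∧ Pw (zz0 e) x₁ y₂ ∧ x₂ = [] ∧ y₁ = []) ∨
  (h = 5 ∧ h' = 6 ∧ Un (zz0 e) x₀ ∧ x₀ = y₀ ∧ (¬ Pw1 (zz0 e) x₁) ∧ x₁ = y₁ ∧ x₂ = [] ∧ y₂ = []) ∨
  (h = 6 ∧ h' = 6 ∧ Un (zz0 e) x₀ ∧ x₀ = y₀ ∧ x₁ = sc e y₁ ∧ US (zz0 e) x₂ y₂) ∨
  (h = 6 ∧ h' = 6 ∧ US (zz0 e) y₀ x₀ ∧ Pw (zz0 e) y₁ x₂ ∧ x₁ = [] ∧ y₂ = []) ∨
  (h = 6 ∧ h' = 2 ∧ x₀ = [] ∧ x₁ = [] ∧ Pw (zz0 e) y₀ x₂ ∧ y₁ = [] ∧ y₂ = [])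

lemma step_iff (h : Fin 7) (x₀ x₁ x₂ : List S) (h' : Fin 7) (y₀ y₁ y₂ : List S) :
    (∃ d d', Step (fun a => idx e (cd a)) (nb m) d d' ∧ enc e cd d = (h, x₀, x₁, x₂) ∧
      enc e cd d' = (h', y₀, y₁, y₂)) ↔ StepC e cd h x₀ x₁ x₂ h' y₀ y₁ y₂ := by
  have hne : ∀ n, (∀ a, idx e (cd a) ≠ n) ↔ ¬ ∃ a, st e n = cd a := by
    intro n
    rw [not_exists]
    refine forall_congr' fun a => not_congr ?_
    constructor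
    · rintro rfl; exact st_idx e _
    · intro h; rw [← h, idx_st]
  have hnp : ∀ n, (∀ j, nb m j ≠ n) ↔ ¬ Pw1 (zz0 e) (st e n) := by
    intro n
    rw [Pw1, not_exists]
    refine forall_congr' fun a => not_congr ?_
    rw [← st_nb]
    constructor
    · rintro rfl; rfl
    · intro h; exact (st_inj e h).symm
  constructor
  · rintro ⟨d, d', hs, hd, hd'⟩
    cases hs <;> simp only [enc, Prod.mk.injEq] at hd hd' <;>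
      obtain ⟨rfl, rfl, rfl, rfl⟩ := hd <;> obtain ⟨rfl, rfl, rfl, rfl⟩ := hd' <;>
      simp only [StepC, Fin.reduceEq, false_and, true_and, false_or, or_false, and_true, and_self,
        st_zero, st_idx, reduceCtorEq]
    · exact ⟨_, rfl⟩
    · rename_i n hn
      exact (hne n).1 hn
    · rename_i j
      exact ⟨⟨j, st_nb e j, rfl⟩, rfl⟩
    · rename_i n hn
      exact (hnp n).1 hn
    · rename_i n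
      exact st_succ e n
    · rename_i a b
      exact ⟨⟨a, rfl, rfl⟩, ⟨b, rfl, rfl⟩⟩
    · exact ⟨_, rfl⟩
    · rename_i a b
      exact ⟨⟨a, rfl, rfl⟩, ⟨b, rfl, rfl⟩⟩
    · exact ⟨_, rfl⟩
    · rename_i t c i
      exact Or.inl ⟨⟨t, rfl⟩, st_succ e c, ⟨i, rfl, rfl⟩⟩
    · rename_i t j
      exact Or.inr ⟨⟨t, rfl, rfl⟩, ⟨j, st_nb e j, rfl⟩, rfl⟩
    · rename_i t c hn
      exact ⟨⟨t, rfl⟩, (hnp c).1 hn, rfl⟩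
    · rename_i t c i
      exact Or.inl ⟨⟨t, rfl⟩, st_succ e c, ⟨i, rfl, rfl⟩⟩
    · rename_i t i
      exact Or.inr ⟨⟨t, rfl, rfl⟩, ⟨i, st_nb e i, rfl⟩, rfl⟩
    · rename_i i
      exact ⟨rfl, ⟨i, st_nb e i, rfl⟩⟩
  · unfold StepC
    rintro (⟨rfl, rfl, ⟨a, rfl⟩, rfl, rfl, rfl, rfl, rfl⟩ | ⟨rfl, rfl, hn, rfl, rfl, rfl, rfl, rfl⟩ |
      ⟨rfl, rfl, ⟨j, rfl, rfl⟩, rfl, rfl, rfl, rfl⟩ | ⟨rfl, rfl, hn, rfl, rfl, rfl, rfl, rfl⟩ |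
      ⟨rfl, rfl, rfl, rfl, rfl, rfl, rfl⟩ | ⟨rfl, rfl, ⟨a, rfl, rfl⟩, ⟨b, rfl, rfl⟩, rfl, rfl⟩ |
      ⟨rfl, rfl, rfl, rfl, ⟨a, rfl⟩, rfl, rfl, rfl⟩ |
      ⟨rfl, rfl, ⟨a, rfl, rfl⟩, ⟨b, rfl, rfl⟩, rfl, rfl⟩ |
      ⟨rfl, rfl, ⟨a, rfl⟩, rfl, rfl, rfl, rfl, rfl⟩ |
      ⟨rfl, rfl, ⟨t, rfl⟩, rfl, rfl, ⟨i, rfl, rfl⟩⟩ |
      ⟨rfl, rfl, ⟨t, rfl, rfl⟩, ⟨j, rfl, rfl⟩, rfl, rfl⟩ |
      ⟨rfl, rfl, ⟨t, rfl⟩, rfl, hn, rfl, rfl, rfl⟩ |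
      ⟨rfl, rfl, ⟨t, rfl⟩, rfl, rfl, ⟨i, rfl, rfl⟩⟩ |
      ⟨rfl, rfl, ⟨t, rfl, rfl⟩, ⟨j, rfl, rfl⟩, rfl, rfl⟩ |
      ⟨rfl, rfl, rfl, rfl, ⟨i, rfl, rfl⟩, rfl, rfl⟩)
    · exact ⟨_, _, .b0z a, by simp [enc, st_idx], by simp [enc]⟩
    · refine ⟨_, _, .b0b (idx e x₀) ?_, by simp [enc, st_idx], by simp [enc, st_idx]⟩
      rw [hne, st_idx]; exact hn
    · exact ⟨_, _, .b1l j, by simp [enc, st_nb], by simp [enc, st_zero]⟩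
    · refine ⟨_, _, .b1b (idx e x₀) ?_, by simp [enc, st_idx], by simp [enc, st_idx]⟩
      rw [hnp, st_idx]; exact hn
    · exact ⟨_, _, .b2b (idx e x₀), by simp [enc, st_idx], by simp [enc, st_succ, st_idx]⟩
    · exact ⟨_, _, .zdd a b, by simp [enc], by simp [enc]⟩
    · exact ⟨_, _, .zt a, by simp [enc], by simp [enc]⟩
    · exact ⟨_, _, .zuu a b, by simp [enc], by simp [enc]⟩
    · exact ⟨_, _, .zr a, by simp [enc], by simp [enc, st_idx]⟩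
    · exact ⟨_, _, .ldd t (idx e x₁) i, by simp [enc, st_idx], by simp [enc, st_succ, st_idx]⟩
    · exact ⟨_, _, .ln t j, by simp [enc, st_nb], by simp [enc, st_zero]⟩
    · refine ⟨_, _, .lt t (idx e x₁) ?_, by simp [enc, st_idx], by simp [enc, st_idx]⟩
      rw [hnp, st_idx]; exact hn
    · exact ⟨_, _, .luu t (idx e y₁) i, by simp [enc, st_succ, st_idx], by simp [enc, st_idx]⟩
    · exact ⟨_, _, .lr t j, by simp [enc, st_zero], by simp [enc, st_nb]⟩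
    · exact ⟨_, _, .lb i, by simp [enc, st_zero], by simp [enc, st_nb]⟩

/-- The valid codes. -/
def ValidC (h : Fin 7) (x₀ x₁ x₂ : List S) : Prop :=
  (((h = 0 ∨ h = 1) ∨ h = 2) ∧ x₁ = [] ∧ x₂ = []) ∨
  ((h = 3 ∨ h = 4) ∧ (∃ a, x₀ = cd a) ∧ (∃ a, x₁ = cd a) ∧ x₂ = []) ∨
  ((h = 5 ∨ h = 6) ∧ Un (zz0 e) x₀ ∧ Un (zz0 e) x₂)

lemma valid_iff (h : Fin 7) (x₀ x₁ x₂ : List S) :
    (∃ d, enc e cd d = (h, x₀, x₁, x₂)) ↔ ValidC e cd h x₀ x₁ x₂ := by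
  constructor
  · rintro ⟨d, hd⟩
    rcases d with n | n | n | ⟨a, b⟩ | ⟨a, b⟩ | ⟨t, c, i⟩ | ⟨t, c, i⟩ <;>
      simp only [enc, Prod.mk.injEq] at hd <;> obtain ⟨rfl, rfl, rfl, rfl⟩ := hd <;>
      simp [ValidC, Un]
  · unfold ValidC
    rintro (⟨(rfl | rfl) | rfl, rfl, rfl⟩ | ⟨rfl | rfl, ⟨a, rfl⟩, ⟨b, rfl⟩, rfl⟩ |
      ⟨rfl | rfl, ⟨t, rfl⟩, ⟨i, rfl⟩⟩)
    · exact ⟨b0 (idx e x₀), by simp [enc, st_idx]⟩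
    · exact ⟨b1 (idx e x₀), by simp [enc, st_idx]⟩
    · exact ⟨b2 (idx e x₀), by simp [enc, st_idx]⟩
    · exact ⟨zd a b, by simp [enc]⟩
    · exact ⟨zu a b, by simp [enc]⟩
    · exact ⟨ld t (idx e x₁) i, by simp [enc, st_idx]⟩
    · exact ⟨lu t (idx e x₁) i, by simp [enc, st_idx]⟩

section

variable (h1 : R1 (fun x => ∃ a, x = cd a)) (h2 : R2 (fun x y => ∃ a, x = cd a ∧ y = cd (a + 1)))
  {Λ : Type} (κ κ' : Λ → Fin 7) (a b c a' b' c' : Λ → Option S)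

include h1

lemma rg_valid : Rg (fun W => ValidC e cd (hdr κ W) (ct a W) (ct b W) (ct c W)) := by
  unfold ValidC
  refine Rg.or (Rg.and (((rg_hdr κ 0).or (rg_hdr κ 1)).or (rg_hdr κ 2))
    ((r1_emp Λ b).and (r1_emp Λ c))) (Rg.or (Rg.and ((rg_hdr κ 3).or (rg_hdr κ 4))
    ((h1 Λ a).and ((h1 Λ b).and (r1_emp Λ c)))) (Rg.and ((rg_hdr κ 5).or (rg_hdr κ 6))
    ((r1_un _ Λ a).and (r1_un _ Λ c))))

include h2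

lemma rg_step : Rg (fun W => StepC e cd (hdr κ W) (ct a W) (ct b W) (ct c W)
    (hdr κ' W) (ct a' W) (ct b' W) (ct c' W)) := by
  unfold StepC
  refine Rg.or ?_ (Rg.or ?_ (Rg.or ?_ (Rg.or ?_ (Rg.or ?_ (Rg.or ?_ (Rg.or ?_ (Rg.or ?_ (Rg.or ?_
    (Rg.or ?_ (Rg.or ?_ (Rg.or ?_ (Rg.or ?_ (Rg.or ?_ ?_))))))))))))) <;>
    refine (rg_hdr κ _).and ((rg_hdr κ' _).and ?_)
  · exact (h1 Λ a).and ((r2_eq Λ a a').and ((r1_const (cd 0) Λ b').and ((r1_emp Λ b).and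
      ((r1_emp Λ c).and (r1_emp Λ c')))))
  · exact (h1 Λ a).not.and ((r2_eq Λ a a').and ((r1_emp Λ b').and ((r1_emp Λ b).and
      ((r1_emp Λ c).and (r1_emp Λ c')))))
  · exact (r2_pw _ Λ a c').and ((r1_emp Λ a').and ((r1_emp Λ b').and ((r1_emp Λ b).and
      (r1_emp Λ c))))
  · exact (r1_pw1 _ Λ a).not.and ((r2_eq Λ a a').and ((r1_emp Λ b').and ((r1_emp Λ b).and
      ((r1_emp Λ c).and (r1_emp Λ c')))))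
  · exact (r2_sc e Λ a a').and ((r1_emp Λ b').and ((r1_emp Λ b).and
      ((r1_emp Λ c).and (r1_emp Λ c'))))
  · exact (h2 Λ a' a).and ((h2 Λ b b').and ((r1_emp Λ c).and (r1_emp Λ c')))
  · exact (r1_const (cd 0) Λ a).and ((r1_const (cd 0) Λ a').and ((h1 Λ b).and
      ((r2_eq Λ b b').and ((r1_emp Λ c).and (r1_emp Λ c')))))
  · exact (h2 Λ a a').and ((h2 Λ b' b).and ((r1_emp Λ c).and (r1_emp Λ c')))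
  · exact (h1 Λ a).and ((r1_const (cd 0) Λ b).and ((r2_eq Λ a a').and ((r1_emp Λ c).and
      ((r1_emp Λ b').and (r1_emp Λ c')))))
  · exact (r1_un _ Λ a).and ((r2_eq Λ a a').and ((r2_sc e Λ b b').and (r2_us _ Λ c' c)))
  · exact (r2_us _ Λ a a').and ((r2_pw _ Λ b c').and ((r1_emp Λ c).and (r1_emp Λ b')))
  · exact (r1_un _ Λ a).and ((r2_eq Λ a a').and ((r1_pw1 _ Λ b).not.and ((r2_eq Λ b b').and
      ((r1_emp Λ c).and (r1_emp Λ c')))))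
  · exact (r1_un _ Λ a).and ((r2_eq Λ a a').and ((r2_sc e Λ b' b).and (r2_us _ Λ c c')))
  · exact (r2_us _ Λ a' a).and ((r2_pw _ Λ b' c).and ((r1_emp Λ b).and (r1_emp Λ c')))
  · exact (r1_emp Λ a).and ((r1_emp Λ b).and ((r2_pw _ Λ a' c).and ((r1_emp Λ b').and
      (r1_emp Λ c'))))

end

end Pool.Agent.H316.FA
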