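import Pool.Agent.H316.FA.Reg

/-!
The enumeration of all words by an odometer.
-/

set_option linter.unusedSimpArgs false

namespace Pool.Agent.H316.FA

variable {S : Type} {m : ℕ} (e : S ≃ Fin (m + 2))

/-- The first letter. -/
def zz0 : S := e.symm 0

/-- The index of a word. -/
def idx : List S → ℕ
  | [] => 0
  | a :: p => (e a : ℕ) + 1 + (m + 2) * idx p

/-- The next word. -/
def sc : List S → List S
  | [] => [zz0 e]
  | a :: p => if (e a : ℕ) = m + 1 then zz0 e :: sc p else e.symm (e a + 1) :: p

lemma sc_cons (a : S) (p : List S) :
    sc e (a :: p) = if (e a : ℕ) = m + 1 then zz0 e :: sc e p else e.symm (e a + 1) :: p := rfl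

lemma val_succ {a : S} (h : (e a : ℕ) ≠ m + 1) : ((e a + 1 : Fin (m + 2)) : ℕ) = e a + 1 := by
  rw [Fin.val_add_one]
  rw [if_neg]
  intro h'
  apply h
  rw [h']
  rfl

lemma idx_sc (u : List S) : idx e (sc e u) = idx e u + 1 := by
  induction u with
  | nil => simp [sc, idx, zz0]
  | cons a p ih =>
    unfold sc
    by_cases h : (e a : ℕ) = m + 1
    · rw [if_pos h]
      simp only [idx, ih, h, zz0, Equiv.apply_symm_apply, Fin.val_zero]
      ring
    · rw [if_neg h]
      simp only [idx, Equiv.apply_symm_apply, val_succ e h]
      ring

lemma idx_cons_lt_iff (a b : S) (u v : List S) :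
    idx e (a :: u) < idx e (b :: v) ↔
      idx e u < idx e v ∨ (idx e u = idx e v ∧ (e a : ℕ) < e b) := by
  simp only [idx]
  have ha := (e a).2
  have hb := (e b).2
  constructor
  · intro h
    rcases lt_trichotomy (idx e u) (idx e v) with h1 | h1 | h1
    · exact Or.inl h1
    · right; refine ⟨h1, ?_⟩; rw [h1] at h; omega
    · exfalso
      have : (m + 2) * (idx e v + 1) ≤ (m + 2) * idx e u := Nat.mul_le_mul_left _ h1
      rw [mul_add] at this
      omega
  · rintro (h1 | ⟨h1, h2⟩)
    · have : (m + 2) * (idx e u + 1) ≤ (m + 2) * idx e v := Nat.mul_le_mul_left _ h1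
      rw [mul_add] at this
      omega
    · rw [h1]; omega

lemma idx_inj : Function.Injective (idx e) := by
  intro u
  induction u with
  | nil =>
    intro v h
    cases v with
    | nil => rfl
    | cons b v => simp only [idx] at h; omega
  | cons a u ih =>
    intro v h
    cases v with
    | nil => simp only [idx] at h; omega
    | cons b v =>
      have h1 := (idx_cons_lt_iff e a b u v).not.1 (by omega)
      have h2 := (idx_cons_lt_iff e b a v u).not.1 (by omega)
      push Not at h1 h2
      have h3 : idx e u = idx e v := le_antisymm h2.1 h1.1
      have h4 : (e a : ℕ) = e b := le_antisymm (h2.2 h3.symm) (h1.2 h3)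
      rw [ih h3, e.injective (Fin.ext h4)]

/-- The word with a given index. -/
def st (n : ℕ) : List S := (sc e)^[n] []

lemma st_zero : st e 0 = [] := rfl

lemma st_succ (n : ℕ) : st e (n + 1) = sc e (st e n) := Function.iterate_succ_apply' _ _ _

lemma idx_st (n : ℕ) : idx e (st e n) = n := by
  induction n with
  | zero => rfl
  | succ n ih => rw [st_succ, idx_sc, ih]

lemma st_idx (u : List S) : st e (idx e u) = u := idx_inj e (idx_st e _)

lemma st_inj : Function.Injective (st e) := fun a b h => by rw [← idx_st e a, h, idx_st]

lemma sc_iff (u v : List S) : v = sc e u ↔ idx e v = idx e u + 1 := by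
  constructor
  · rintro rfl; exact idx_sc e u
  · intro h; apply idx_inj e; rw [h, idx_sc]

/-- The index of the first word of length `j`. -/
def NN (m : ℕ) : ℕ → ℕ
  | 0 => 0
  | j + 1 => 1 + (m + 2) * NN m j

lemma idx_rep (j : ℕ) : idx e (List.replicate j (zz0 e)) = NN m j := by
  induction j with
  | zero => rfl
  | succ j ih =>
    rw [List.replicate_succ, idx, ih]
    simp [zz0, NN]

lemma NN_lt_succ (m j : ℕ) : NN m j < NN m (j + 1) := by
  simp only [NN]; nlinarith [Nat.zero_le (NN m j), Nat.zero_le m]

lemma NN_strictMono (m : ℕ) : StrictMono (NN m) := strictMono_nat_of_lt_succ (NN_lt_succ m)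

lemma NN_ge (m j : ℕ) : 2 ^ j ≤ NN m j + 1 := by
  induction j with
  | zero => simp
  | succ j ih =>
    simp only [NN, pow_succ]
    nlinarith [Nat.zero_le (m * NN m j)]

lemma idx_bounds (u : List S) : NN m u.length ≤ idx e u ∧ idx e u < NN m (u.length + 1) := by
  induction u with
  | nil => simp [idx, NN]
  | cons a u ih =>
    have ha := (e a).2
    simp only [idx, List.length_cons]
    constructor
    · have h1 : NN m (u.length + 1) = 1 + (m + 2) * NN m u.length := rfl
      rw [h1]
      have := Nat.mul_le_mul_left (m + 2) ih.1
      omega
    · have h1 : NN m (u.length + 1 + 1) = 1 + (m + 2) * NN m (u.length + 1) := rfl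
      rw [h1]
      have : (m + 2) * (idx e u + 1) ≤ (m + 2) * NN m (u.length + 1) :=
        Nat.mul_le_mul_left (m + 2) ih.2
      rw [mul_add] at this
      omega

lemma idx_lt_of_length {u : List S} {j : ℕ} (h : u.length < j) : idx e u < NN m j :=
  lt_of_lt_of_le (idx_bounds e u).2 ((NN_strictMono m).monotone h)

lemma idx_lt_of_length_lt {u v : List S} (h : u.length < v.length) : idx e u < idx e v :=
  (idx_lt_of_length e h).trans_le (idx_bounds e v).1

lemma length_le_of_idx_le {u v : List S} (h : idx e u ≤ idx e v) : u.length ≤ v.length := by
  by_contra h'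
  exact absurd (idx_lt_of_length_lt e (not_le.1 h')) (by omega)

/-! ### Regularity -/

lemma r2_sc : R2 (fun u v : List S => v = sc e u) := by
  classical
  refine R2_of_states (Q := BQ) (fun q o o' => match q, o, o' with
    | .run, some a, some b => if (e a : ℕ) = m + 1 then (if b = zz0 e then .run else .dead)
        else (if b = e.symm (e a + 1) then .eq else .dead)
    | .run, none, some b => if b = zz0 e then .vEnd else .dead
    | .eq, some a, some b => if a = b then .eq else .dead
    | .eq, none, none => .done
    | .vEnd, _, none => .done
    | .done, _, _ => .done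
    | _, _, _ => .dead)
    (fun q u v => match q with
      | .run => v = sc e u
      | .eq => u = v
      | .vEnd => v = []
      | .done => True
      | _ => False) ?_ ?_ ?_ ?_ .run
  · intro q a u b v
    cases q <;> simp only [reduceCtorEq]
    · rw [sc_cons]
      by_cases h : (e a : ℕ) = m + 1
      · by_cases h' : b = zz0 e <;> simp [h, h']
      · by_cases h' : b = e.symm (e a + 1)
        · simp [h, h', eq_comm]
        · simp [h, h']
    · by_cases h : a = b <;> simp [h]
  · intro q a u v
    cases q <;> simp only [reduceCtorEq]
    rw [sc_cons]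
    by_cases h : (e a : ℕ) = m + 1 <;> simp [h]
  · intro q u b v
    cases q <;> simp only [reduceCtorEq]
    by_cases h : b = zz0 e <;> simp [sc, h]
  · intro q u v
    cases q <;> simp [sc]

/-- The comparison of indices. -/
lemma r2_lt : R2 (fun u v : List S => idx e u < idx e v) := by
  classical
  -- `eq`: equal so far, `run`: smaller so far, `one`: larger so far
  have key := R2_of_states (S := S) (Q := BQ) (fun q o o' => match q, o, o' with
    | .eq, some a, some b => if (e a : ℕ) < e b then .run else if a = b then .eq else .one
    | .run, some a, some b => if (e a : ℕ) < e b then .run else if a = b then .run else .one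
    | .one, some a, some b => if (e a : ℕ) < e b then .run else if a = b then .one else .one
    | .eq, none, some _ => .done
    | .run, none, some _ => .done
    | .one, none, some _ => .done
    | .run, none, none => .done
    | .done, _, _ => .done
    | _, _, _ => .dead)
    (fun q u v => match q with
      | .eq => idx e u < idx e v
      | .run => idx e u ≤ idx e v
      | .one => idx e u < idx e v
      | .done => True
      | _ => False) ?_ ?_ ?_ ?_ .eq
  · exact key
  · intro q a u b v
    have hle : idx e (a :: u) ≤ idx e (b :: v) ↔
        idx e u < idx e v ∨ (idx e u = idx e v ∧ (e a : ℕ) ≤ e b) := by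
      rw [← not_lt, idx_cons_lt_iff]
      omega
    have hab : (e a : ℕ) = e b ↔ a = b := by
      constructor
      · intro h; exact e.injective (Fin.ext h)
      · rintro rfl; rfl
    cases q
    · refine hle.trans ?_
      by_cases h : (e a : ℕ) < e b
      · simp only [h, if_true, and_true] <;> omega
      · by_cases h' : a = b
        · subst h'; simp only [lt_irrefl, if_false, if_true, and_false, or_false, le_refl, and_true] <;> omega
        · have : (e a : ℕ) ≠ e b := fun h'' => h' (hab.1 h'')
          simp only [h, h', if_false, and_false, or_false] <;> omega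
    · refine (idx_cons_lt_iff e a b u v).trans ?_
      by_cases h : (e a : ℕ) < e b
      · simp only [h, if_true, and_true] <;> omega
      · by_cases h' : a = b
        · subst h'; simp only [lt_irrefl, if_false, if_true, and_false, or_false, le_refl, and_true] <;> omega
        · have : (e a : ℕ) ≠ e b := fun h'' => h' (hab.1 h'')
          simp only [h, h', if_false, and_false, or_false] <;> omega
    · exact Iff.rfl
    · exact Iff.rfl
    · refine (idx_cons_lt_iff e a b u v).trans ?_
      by_cases h : (e a : ℕ) < e b
      · simp only [h, if_true, and_true] <;> omega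
      · by_cases h' : a = b
        · subst h'; simp only [lt_irrefl, if_false, if_true, and_false, or_false, le_refl, and_true] <;> omega
        · have : (e a : ℕ) ≠ e b := fun h'' => h' (hab.1 h'')
          simp only [h, h', if_false, and_false, or_false] <;> omega
    · exact Iff.rfl
    · exact Iff.rfl
  · intro q a u v
    cases q <;> simp [idx]
  · intro q u b v
    cases q <;> simp [idx]
  · intro q u v
    cases q <;> simp [idx]

end Pool.Agent.H316.FA
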