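import Mathlib

/-!
Regular predicates on words over letters with tracks.
-/

namespace Pool.Agent.H316.FA

/-- A regular predicate on words. -/
def Rg {Λ : Type} (P : List Λ → Prop) : Prop := Language.IsRegular ({W | P W} : Language Λ)

lemma Rg.congr {Λ : Type} {P Q : List Λ → Prop} (h : Rg P) (hPQ : ∀ W, Q W ↔ P W) : Rg Q := by
  have : ({W | Q W} : Language Λ) = {W | P W} := Set.ext hPQ
  unfold Rg; rw [this]; exact h

lemma Rg.and {Λ : Type} {P Q : List Λ → Prop} (h : Rg P) (h' : Rg Q) :
    Rg (fun W => P W ∧ Q W) := Language.IsRegular.inf h h'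

lemma Rg.not {Λ : Type} {P : List Λ → Prop} (h : Rg P) : Rg (fun W => ¬ P W) :=
  Language.IsRegular.compl h

lemma Rg.or {Λ : Type} {P Q : List Λ → Prop} (h : Rg P) (h' : Rg Q) :
    Rg (fun W => P W ∨ Q W) := Language.IsRegular.add h h'

/-- The criterion: a finite set of states with a meaning. -/
lemma Rg.of_states {Λ Q : Type} [Finite Q] (next : Q → Λ → Q) (sem : Q → List Λ → Prop)
    (hs : ∀ q ℓ W, sem q (ℓ :: W) ↔ sem (next q ℓ) W) (q₀ : Q) : Rg (sem q₀) := by
  classical
  have := Fintype.ofFinite Q
  refine ⟨Q, inferInstance, ⟨next, q₀, {q | sem q []}⟩, ?_⟩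
  ext W
  change DFA.evalFrom _ q₀ W ∈ {q | sem q []} ↔ sem q₀ W
  generalize q₀ = q
  induction W generalizing q with
  | nil => exact Iff.rfl
  | cons ℓ W ih =>
    rw [hs]
    exact ih (next q ℓ)

/-- The content of a track: its letters before the first blank. -/
def ct {Λ S : Type} (τ : Λ → Option S) : List Λ → List S
  | [] => []
  | ℓ :: W => match τ ℓ with
    | none => []
    | some a => a :: ct τ W

lemma ct_none {Λ S : Type} {τ : Λ → Option S} {ℓ : Λ} (h : τ ℓ = none) (W : List Λ) :
    ct τ (ℓ :: W) = [] := by simp [ct, h]

lemma ct_some {Λ S : Type} {τ : Λ → Option S} {ℓ : Λ} {a : S} (h : τ ℓ = some a) (W : List Λ) :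
    ct τ (ℓ :: W) = a :: ct τ W := by simp [ct, h]

/-- Regular sets of contents. -/
def R1 {S : Type} (P : List S → Prop) : Prop :=
  ∀ (Λ : Type) (τ : Λ → Option S), Rg (fun W => P (ct τ W))

/-- Regular relations between contents. -/
def R2 {S : Type} (P : List S → List S → Prop) : Prop :=
  ∀ (Λ : Type) (τ₁ τ₂ : Λ → Option S), Rg (fun W => P (ct τ₁ W) (ct τ₂ W))

lemma R1_of_states {S Q : Type} [Finite Q] (next : Q → Option S → Q) (sem : Q → List S → Prop)
    (h1 : ∀ q a u, sem q (a :: u) ↔ sem (next q (some a)) u)
    (h0 : ∀ q u, sem q [] ↔ sem (next q none) u) (q₀ : Q) : R1 (sem q₀) := by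
  intro Λ τ
  refine Rg.of_states (fun q ℓ => next q (τ ℓ)) (fun q W => sem q (ct τ W)) ?_ q₀
  intro q ℓ W
  rcases hℓ : τ ℓ with _ | a
  · rw [ct_none hℓ]; exact h0 q _
  · rw [ct_some hℓ]; exact h1 q a _

lemma R2_of_states {S Q : Type} [Finite Q] (next : Q → Option S → Option S → Q)
    (sem : Q → List S → List S → Prop)
    (h11 : ∀ q a u b v, sem q (a :: u) (b :: v) ↔ sem (next q (some a) (some b)) u v)
    (h10 : ∀ q a u v, sem q (a :: u) [] ↔ sem (next q (some a) none) u v)
    (h01 : ∀ q u b v, sem q [] (b :: v) ↔ sem (next q none (some b)) u v)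
    (h00 : ∀ q u v, sem q [] [] ↔ sem (next q none none) u v) (q₀ : Q) : R2 (sem q₀) := by
  intro Λ τ₁ τ₂
  refine Rg.of_states (fun q ℓ => next q (τ₁ ℓ) (τ₂ ℓ))
    (fun q W => sem q (ct τ₁ W) (ct τ₂ W)) ?_ q₀
  intro q ℓ W
  rcases h1 : τ₁ ℓ with _ | a <;> rcases h2 : τ₂ ℓ with _ | b
  · rw [ct_none h1, ct_none h2]; exact h00 q _ _
  · rw [ct_none h1, ct_some h2]; exact h01 q _ b _
  · rw [ct_some h1, ct_none h2]; exact h10 q a _ _
  · rw [ct_some h1, ct_some h2]; exact h11 q a _ b _

lemma R1.and {S : Type} {P Q : List S → Prop} (h : R1 P) (h' : R1 Q) : R1 (fun u => P u ∧ Q u) :=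
  fun Λ τ => (h Λ τ).and (h' Λ τ)

lemma R1.not {S : Type} {P : List S → Prop} (h : R1 P) : R1 (fun u => ¬ P u) :=
  fun Λ τ => (h Λ τ).not

lemma R2.and {S : Type} {P Q : List S → List S → Prop} (h : R2 P) (h' : R2 Q) :
    R2 (fun u v => P u v ∧ Q u v) :=
  fun Λ τ₁ τ₂ => (h Λ τ₁ τ₂).and (h' Λ τ₁ τ₂)

lemma R1.congr {S : Type} {P Q : List S → Prop} (h : R1 P) (hPQ : ∀ u, Q u ↔ P u) : R1 Q :=
  fun Λ τ => (h Λ τ).congr fun _ => hPQ _

lemma R2.congr {S : Type} {P Q : List S → List S → Prop} (h : R2 P) (hPQ : ∀ u v, Q u v ↔ P u v) :
    R2 Q :=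
  fun Λ τ₁ τ₂ => (h Λ τ₁ τ₂).congr fun _ => hPQ _ _

/-- Projection. -/
lemma R2.proj {S : Type} {P : List S → List S → Prop} (h : R2 P)
    (hlen : ∀ u v, P u v → u.length ≤ v.length) : R1 (fun v => ∃ u, P u v) := by
  classical
  intro Λ τ
  obtain ⟨σ, hσ, M, hM⟩ := h (Option S × Option S) Prod.fst Prod.snd
  have hM' : ∀ W, M.evalFrom M.start W ∈ M.accept ↔ P (ct Prod.fst W) (ct Prod.snd W) := by
    intro W
    exact Set.ext_iff.1 hM W
  have key : Rg (fun W : List Λ => ∃ O : List (Option S), O.length = W.length ∧
      M.evalFrom M.start (O.zip (W.map τ)) ∈ M.accept) := by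
    have := Rg.of_states (Λ := Λ) (Q := Set σ)
      (fun Z ℓ => {q' | ∃ q ∈ Z, ∃ o : Option S, q' = M.step q (o, τ ℓ)})
      (fun Z W => ∃ q ∈ Z, ∃ O : List (Option S), O.length = W.length ∧
        M.evalFrom q (O.zip (W.map τ)) ∈ M.accept) ?_ {M.start}
    · refine this.congr fun W => ?_
      simp
    · intro Z ℓ W
      constructor
      · rintro ⟨q, hq, O, hO, hacc⟩
        cases O with
        | nil => simp at hO
        | cons o O =>
          refine ⟨M.step q (o, τ ℓ), ⟨q, hq, o, rfl⟩, O, by simpa using hO, ?_⟩
          simpa [DFA.evalFrom_cons] using hacc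
      · rintro ⟨_, ⟨q, hq, o, rfl⟩, O, hO, hacc⟩
        refine ⟨q, hq, o :: O, by simpa using hO, ?_⟩
        simpa [DFA.evalFrom_cons] using hacc
  refine key.congr fun W => ?_
  have hsnd : ∀ (W : List Λ) (O : List (Option S)), O.length = W.length →
      ct Prod.snd (O.zip (W.map τ)) = ct τ W := by
    intro W
    induction W with
    | nil => intro O hO; simp [ct]
    | cons ℓ W ih =>
      intro O hO
      cases O with
      | nil => simp at hO
      | cons o O =>
        rcases hτ : τ ℓ with _ | a
        · rw [ct_none hτ, List.map_cons, List.zip_cons_cons, ct_none (by simpa using hτ)]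
        · rw [ct_some hτ, List.map_cons, List.zip_cons_cons, ct_some (by simpa using hτ),
            ih O (by simpa using hO)]
  constructor
  · rintro ⟨u, hu⟩
    have hul : u.length ≤ W.length := by
      refine (hlen _ _ hu).trans ?_
      clear hu
      induction W with
      | nil => simp [ct]
      | cons ℓ W ih =>
        rcases hτ : τ ℓ with _ | a
        · rw [ct_none hτ]; simp
        · rw [ct_some hτ]; simpa using ih
    refine ⟨u.map some ++ List.replicate (W.length - u.length) none, by simp [hul], ?_⟩
    rw [hM', hsnd W _ (by simp [hul])]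
    have hfst : ∀ (u : List S) (T : List (Option S)) (k : ℕ), u.length + k = T.length →
        ct Prod.fst ((u.map some ++ List.replicate k none).zip T) = u := by
      intro u
      induction u with
      | nil =>
        intro T k hk
        cases k with
        | zero => simp [ct]
        | succ k =>
          cases T with
          | nil => simp at hk
          | cons t T => simp [List.replicate_succ, ct]
      | cons a u ih =>
        intro T k hk
        cases T with
        | nil => simp at hk
        | cons t T =>
          rw [List.map_cons, List.cons_append, List.zip_cons_cons,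
            ct_some (τ := Prod.fst) (ℓ := (some a, t)) (a := a) rfl,
            ih T k (by simp at hk; omega)]
    rw [hfst u _ _ (by simp; omega)]
    exact hu
  · rintro ⟨O, hO, hacc⟩
    rw [hM', hsnd W O hO] at hacc
    exact ⟨_, hacc⟩

/-- The header of a word. -/
def hdr {Λ : Type} (κ : Λ → Fin 7) : List Λ → Fin 7
  | [] => 5
  | ℓ :: _ => κ ℓ

lemma rg_hdr {Λ : Type} (κ : Λ → Fin 7) (h : Fin 7) : Rg (fun W => hdr κ W = h) := by
  refine (Rg.of_states (Q := Option Bool)
    (fun q ℓ => match q with
      | none => some (decide (κ ℓ = h))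
      | some b => some b)
    (fun q W => match q with
      | none => hdr κ W = h
      | some b => b = true) ?_ none)
  intro q ℓ W
  rcases q with _ | b
  · simp [hdr]
  · simp

/-! ### Basic relations -/

/-- States of the basic automata. -/
inductive BQ : Type
  | run | eq | vEnd | uEnd | one | done | dead
  deriving DecidableEq

instance : Finite BQ := by
  refine Finite.of_injective (β := Fin 7) (fun q => match q with
    | .run => 0 | .eq => 1 | .vEnd => 2 | .uEnd => 3 | .one => 4 | .done => 5 | .dead => 6) ?_
  intro a b h
  cases a <;> cases b <;> simp_all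

lemma r1_emp {S : Type} : R1 (fun u : List S => u = []) := by
  refine R1_of_states (Q := BQ) (fun q o => match q, o with
    | .uEnd, some _ => .dead
    | .uEnd, none => .done
    | .done, _ => .done
    | _, _ => .dead)
    (fun q u => match q with
      | .uEnd => u = []
      | .done => True
      | _ => False) ?_ ?_ .uEnd
  · intro q a u; cases q <;> simp
  · intro q u; cases q <;> simp

lemma r2_eq {S : Type} : R2 (fun u v : List S => u = v) := by
  classical
  refine R2_of_states (Q := BQ) (fun q o o' => match q, o, o' with
    | .run, some a, some b => if a = b then .run else .dead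
    | .run, none, none => .done
    | .done, _, _ => .done
    | _, _, _ => .dead)
    (fun q u v => match q with
      | .run => u = v
      | .done => True
      | _ => False) ?_ ?_ ?_ ?_ .run
  · intro q a u b v
    cases q <;> simp
    by_cases h : a = b <;> simp [h]
  · intro q a u v; cases q <;> simp
  · intro q u b v; cases q <;> simp
  · intro q u v; cases q <;> simp

section Unary

variable {S : Type} (z : S)

lemma rep_cons (a : S) (u : List S) (k : ℕ) :
    (∃ j, a :: u = List.replicate (j + (k + 1)) z) ↔ a = z ∧ ∃ j, u = List.replicate (j + k) z := by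
  constructor
  · rintro ⟨j, h⟩
    rw [← add_assoc, List.replicate_succ, List.cons.injEq] at h
    exact ⟨h.1, j, h.2⟩
  · rintro ⟨rfl, j, rfl⟩
    exact ⟨j, by rw [← add_assoc, List.replicate_succ]⟩

lemma rep_cons0 (a : S) (u : List S) :
    (∃ j, a :: u = List.replicate j z) ↔ a = z ∧ ∃ j, u = List.replicate j z := by
  constructor
  · rintro ⟨j, h⟩
    cases j with
    | zero => simp at h
    | succ j =>
      rw [List.replicate_succ, List.cons.injEq] at h
      exact ⟨h.1, j, h.2⟩
  · rintro ⟨rfl, j, rfl⟩
    exact ⟨j + 1, by rw [List.replicate_succ]⟩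

/-- Unary words. -/
def Un (u : List S) : Prop := ∃ j, u = List.replicate j z

lemma r1_un : R1 (Un z) := by
  classical
  refine R1_of_states (Q := BQ) (fun q o => match q, o with
    | .run, some a => if a = z then .run else .dead
    | .run, none => .done
    | .done, _ => .done
    | _, _ => .dead)
    (fun q u => match q with
      | .run => Un z u
      | .done => True
      | _ => False) ?_ ?_ .run
  · intro q a u
    cases q <;> simp only
    rw [Un, rep_cons0]
    by_cases h : a = z <;> simp [h, Un]
  · intro q u
    cases q <;> simp only [iff_true]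
    exact ⟨0, rfl⟩

/-- The words `z ^ (j + 2)`. -/
def Pw1 (u : List S) : Prop := ∃ j, u = List.replicate (j + 2) z

lemma r1_pw1 : R1 (Pw1 z) := by
  classical
  refine R1_of_states (Q := BQ) (fun q o => match q, o with
    | .run, some a => if a = z then .one else .dead
    | .one, some a => if a = z then .eq else .dead
    | .eq, some a => if a = z then .eq else .dead
    | .eq, none => .done
    | .done, _ => .done
    | _, _ => .dead)
    (fun q u => match q with
      | .run => Pw1 z u
      | .one => ∃ j, u = List.replicate (j + 1) z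
      | .eq => ∃ j, u = List.replicate j z
      | .done => True
      | _ => False) ?_ ?_ .run
  · intro q a u
    cases q <;> simp only
    · rw [Pw1, rep_cons z a u 1]
      by_cases h : a = z <;> simp [h]
    · rw [rep_cons0]
      by_cases h : a = z <;> simp [h]
    · have := rep_cons z a u 0
      simp only [zero_add, add_zero] at this
      rw [this]
      by_cases h : a = z <;> simp [h]
  · intro q u
    cases q <;> simp only [iff_true, iff_false]
    · rintro ⟨j, h⟩; simp [List.replicate_succ] at h
    · exact ⟨0, rfl⟩
    · rintro ⟨j, h⟩; simp [List.replicate_succ] at h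

/-- Unary successor. -/
def US (u v : List S) : Prop := ∃ j, u = List.replicate j z ∧ v = List.replicate (j + 1) z

lemma r2_us : R2 (US z) := by
  classical
  refine R2_of_states (Q := BQ) (fun q o o' => match q, o, o' with
    | .run, some a, some b => if a = z ∧ b = z then .run else .dead
    | .run, none, some b => if b = z then .vEnd else .dead
    | .vEnd, _, none => .done
    | .done, _, _ => .done
    | _, _, _ => .dead)
    (fun q u v => match q with
      | .run => US z u v
      | .vEnd => v = []
      | .done => True
      | _ => False) ?_ ?_ ?_ ?_ .run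
  · intro q a u b v
    cases q <;> simp only [reduceCtorEq]
    by_cases h : a = z ∧ b = z
    · obtain ⟨rfl, rfl⟩ := h
      simp only [and_self, if_true]
      constructor
      · rintro ⟨j, h1, h2⟩
        cases j with
        | zero => simp at h1
        | succ j =>
          rw [List.replicate_succ, List.cons.injEq] at h1 h2
          exact ⟨j, h1.2, h2.2⟩
      · rintro ⟨j, rfl, rfl⟩
        exact ⟨j + 1, rfl, rfl⟩
    · rw [if_neg h]
      refine iff_of_false ?_ id
      rintro ⟨j, h1, h2⟩
      cases j with
      | zero => simp at h1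
      | succ j =>
        rw [List.replicate_succ, List.cons.injEq] at h1 h2
        exact h ⟨h1.1, h2.1⟩
  · intro q a u v
    cases q <;> simp only
    refine iff_of_false ?_ id
    rintro ⟨j, h1, h2⟩
    simp [List.replicate_succ] at h2
  · intro q u b v
    cases q <;> simp only [reduceCtorEq]
    by_cases h : b = z
    · subst h
      simp only [if_true]
      constructor
      · rintro ⟨j, h1, h2⟩
        cases j with
        | zero => simpa using h2
        | succ j => simp [List.replicate_succ] at h1
      · rintro rfl; exact ⟨0, rfl, rfl⟩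
    · rw [if_neg h]
      refine iff_of_false ?_ id
      rintro ⟨j, h1, h2⟩
      rw [List.replicate_succ, List.cons.injEq] at h2
      exact h h2.1
  · intro q u v
    cases q <;> simp only
    refine iff_of_false ?_ id
    rintro ⟨j, h1, h2⟩
    simp [List.replicate_succ] at h2

/-- `u = z ^ (j + 2)` and `v = z ^ j`. -/
def Pw (u v : List S) : Prop := ∃ j, u = List.replicate (j + 2) z ∧ v = List.replicate j z

lemma r2_pw : R2 (Pw z) := by
  classical
  refine R2_of_states (Q := BQ) (fun q o o' => match q, o, o' with
    | .run, some a, some b => if a = z ∧ b = z then .run else .dead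
    | .run, some a, none => if a = z then .one else .dead
    | .one, some a, _ => if a = z then .uEnd else .dead
    | .uEnd, none, _ => .done
    | .done, _, _ => .done
    | _, _, _ => .dead)
    (fun q u v => match q with
      | .run => Pw z u v
      | .one => u = [z]
      | .uEnd => u = []
      | .done => True
      | _ => False) ?_ ?_ ?_ ?_ .run
  · intro q a u b v
    cases q <;> simp only [reduceCtorEq]
    · by_cases h : a = z ∧ b = z
      · obtain ⟨rfl, rfl⟩ := h
        simp only [and_self, if_true]
        constructor
        · rintro ⟨j, h1, h2⟩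
          cases j with
          | zero => simp at h2
          | succ j =>
            rw [List.replicate_succ, List.cons.injEq] at h1 h2
            exact ⟨j, h1.2, h2.2⟩
        · rintro ⟨j, rfl, rfl⟩
          exact ⟨j + 1, rfl, rfl⟩
      · rw [if_neg h]
        refine iff_of_false ?_ id
        rintro ⟨j, h1, h2⟩
        cases j with
        | zero => simp at h2
        | succ j =>
          rw [List.replicate_succ, List.cons.injEq] at h1 h2
          exact h ⟨h1.1, h2.1⟩
    · by_cases h : a = z <;> simp [h]
  · intro q a u v
    cases q <;> simp only [reduceCtorEq]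
    · by_cases h : a = z
      · subst h
        simp only [if_true]
        constructor
        · rintro ⟨j, h1, h2⟩
          cases j with
          | zero =>
            rw [List.replicate_succ, List.cons.injEq] at h1
            simpa using h1.2
          | succ j => simp [List.replicate_succ] at h2
        · rintro rfl; exact ⟨0, rfl, rfl⟩
      · rw [if_neg h]
        refine iff_of_false ?_ id
        rintro ⟨j, h1, h2⟩
        rw [List.replicate_succ, List.cons.injEq] at h1
        exact h h1.1
    · by_cases h : a = z <;> simp [h]
  · intro q u b v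
    cases q <;> simp only [reduceCtorEq]
    · refine iff_of_false ?_ id
      rintro ⟨j, h1, h2⟩
      simp [List.replicate_succ] at h1
  · intro q u v
    cases q <;> simp only [reduceCtorEq]
    · refine iff_of_false ?_ id
      rintro ⟨j, h1, h2⟩
      simp [List.replicate_succ] at h1

end Unary

/-- A fixed word. -/
lemma r1_const {S : Type} (w : List S) : R1 (fun u => u = w) := by
  classical
  refine (R1_of_states (Q := Option (Option {s : List S // s ∈ w.tails}))
    (fun q o => match q, o with
      | some (some ⟨[], _⟩), none => some none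
      | some (some ⟨b :: s, hs⟩), some a => if a = b then
          some (some ⟨s, by
            rw [List.mem_tails] at hs ⊢
            exact (List.suffix_cons b s).trans hs⟩) else none
      | some none, _ => some none
      | _, _ => none)
    (fun q u => match q with
      | some (some s) => u = s.1
      | some none => True
      | none => False) ?_ ?_ (some (some ⟨w, by simp⟩)))
  · intro q a u
    rcases q with _ | _ | ⟨_ | ⟨b, s⟩, hs⟩
    · simp
    · simp
    · simp
    · by_cases h : a = b <;> simp [h]
  · intro q u
    rcases q with _ | _ | ⟨_ | ⟨b, s⟩, hs⟩ <;> simp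

end Pool.Agent.H316.FA
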